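import Mathlib
import Pool.Agent.H892.VS.Stm

/-!
# Coordinates of the ideals of points by the rule of Cramer (S_COFR)
-/

set_option autoImplicit false
set_option linter.unusedVariables false
set_option linter.unusedSectionVars false

open MvPolynomial Pool.Agent.H892.VS

namespace Pool.Agent.H703.VS

section

variable {n s r : ℕ} (T : Cox n s)

/-- the column of a monomial -/
noncomputable def col (x : Fin r → Fin n → ℂ) (m : Mon n) : Fin r → ℂ :=
  fun i => ∏ j, x i j ^ m j

theorem eval_mon (x : Fin r → Fin n → ℂ) (m : Mon n) (c : ℂ) (i : Fin r) :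
    eval (x i) (monomial m c) = c * col x m i := by
  rw [eval_monomial, Finsupp.prod_fintype]
  · rfl
  · intro j
    exact pow_zero _

theorem mem_mon (u : Fin s → ℤ) (m : Mon n) : m ∈ T.mon u ↔ T.wt m = u := by
  unfold Cox.mon
  rw [Set.Finite.mem_toFinset]
  rfl

theorem mon_part {u : Fin s → ℤ} {m : Mon n} (hm : T.wt m = u) (c : ℂ) :
    monomial m c ∈ T.part u := by
  intro m' h
  rw [coeff_monomial] at h
  split_ifs at h with h1
  · rw [← h1]
    exact hm
  · exact absurd rfl h

theorem part_eq (u : Fin s → ℤ) : T.part u = restrictSupport ℂ {m | T.wt m = u} := by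
  ext g
  rw [mem_restrictSupport_iff]
  constructor
  · intro h m hm
    exact h m (mem_support_iff.1 hm)
  · intro h m hm
    exact h (mem_support_iff.2 hm)

theorem part_fin (u : Fin s → ℤ) :
    Module.Finite ℂ (T.part u) ∧ Module.finrank ℂ (T.part u) = (T.mon u).card := by
  rw [part_eq]
  have hf : Finite {m : Mon n | T.wt m = u} := (T.fin u).to_subtype
  let b := basisRestrictSupport ℂ {m : Mon n | T.wt m = u}
  refine ⟨Module.Finite.of_basis b, ?_⟩
  rw [Module.finrank_eq_nat_card_basis b, Nat.card_coe_set_eq]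
  exact Set.ncard_eq_toFinset_card _ (T.fin u)

theorem red_iff (h1 : S_PTI) (A : Finset (Mon n)) (x : Fin r → Fin n → ℂ) (m : Mon n)
    (c : Mon n → ℂ) :
    T.Red A (T.ptIdeal x) m c ↔ (∀ a, c a ≠ 0 → a ∈ A ∧ T.wt a = T.wt m) ∧
      col x m = ∑ a ∈ A, c a • col x a := by
  unfold Cox.Red
  refine and_congr_right fun hc => ?_
  have hp : monomial m 1 - ∑ a ∈ A, monomial a (c a) ∈ T.part (T.wt m) := by
    refine Submodule.sub_mem _ (mon_part T rfl 1) (Submodule.sum_mem _ fun a _ => ?_)
    by_cases h : c a = 0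
    · rw [h, monomial_zero]
      exact Submodule.zero_mem _
    · exact mon_part T (hc a h).2 _
  rw [(h1 n s r T x).2.2 (T.wt m) _ hp]
  constructor
  · intro h
    funext i
    have h2 := h i
    rw [map_sub, map_sum, eval_mon, one_mul, sub_eq_zero] at h2
    rw [h2, Finset.sum_apply]
    exact Finset.sum_congr rfl fun a _ => eval_mon x a (c a) i
  · intro h i
    rw [map_sub, map_sum, eval_mon, one_mul, sub_eq_zero, h, Finset.sum_apply]
    exact Finset.sum_congr rfl fun a _ => (eval_mon x a (c a) i).symm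

/-- If there are few monomials, the ideal is zero in this degree. -/
theorem small {x : Fin r → Fin n → ℂ} (hx : T.ptIdeal x ∈ T.hilb r) {u : Fin s → ℤ}
    (hu : (T.mon u).card ≤ r) : ∀ g ∈ T.part u, g ∈ T.ptIdeal x → g = 0 := by
  intro g hg hJ
  have h2 := hx.2 u
  rw [min_eq_right hu] at h2
  have h3 : Module.finrank ℂ (T.ipart (T.ptIdeal x) u) = 0 := by omega
  have hle : T.ipart (T.ptIdeal x) u ≤ T.part u := inf_le_right
  have hfin := (part_fin T u).1
  have hfin2 : Module.Finite ℂ (T.ipart (T.ptIdeal x) u) :=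
    Submodule.finiteDimensional_of_le hle
  have h4 : T.ipart (T.ptIdeal x) u = ⊥ := Submodule.finrank_eq_zero.1 h3
  have h5 : g ∈ T.ipart (T.ptIdeal x) u := ⟨hJ, hg⟩
  rw [h4] at h5
  exact (Submodule.mem_bot _).1 h5

/-- If there are many monomials, the columns span. -/
theorem span_top (h1 : S_PTI) {x : Fin r → Fin n → ℂ} (hx : T.ptIdeal x ∈ T.hilb r)
    {u : Fin s → ℤ} (hu : r ≤ (T.mon u).card) (W : Submodule ℂ (Fin r → ℂ))
    (hW : ∀ m, T.wt m = u → col x m ∈ W) : W = ⊤ := by
  let Φ : T.part u →ₗ[ℂ] (Fin r → ℂ) :=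
    LinearMap.pi fun i => (aeval (x i) : MvPolynomial (Fin n) ℂ →ₐ[ℂ] ℂ).toLinearMap ∘ₗ
      (T.part u).subtype
  have hΦ : ∀ (g : T.part u) (i : Fin r), Φ g i = eval (x i) (g : MvPolynomial (Fin n) ℂ) := by
    intro g i
    show aeval (x i) (g : MvPolynomial (Fin n) ℂ) = _
    rw [← MvPolynomial.coe_aeval_eq_eval]
    rfl
  have hfin := (part_fin T u).1
  have hle : T.ipart (T.ptIdeal x) u ≤ T.part u := inf_le_right
  have hker : LinearMap.ker Φ = (T.ipart (T.ptIdeal x) u).comap (T.part u).subtype := by
    ext g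
    rw [LinearMap.mem_ker, Submodule.mem_comap]
    constructor
    · intro h
      refine ⟨((h1 n s r T x).2.2 u _ g.2).2 fun i => ?_, g.2⟩
      rw [← hΦ, h]
      rfl
    · intro h
      funext i
      rw [hΦ]
      exact ((h1 n s r T x).2.2 u _ g.2).1 h.1 i
  have h2 : Module.finrank ℂ (LinearMap.ker Φ) =
      Module.finrank ℂ (T.ipart (T.ptIdeal x) u) := by
    rw [hker]
    exact LinearEquiv.finrank_eq (Submodule.comapSubtypeEquivOfLe hle)
  have h3 := LinearMap.finrank_range_add_finrank_ker Φ
  have h4 := hx.2 u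
  rw [min_eq_left hu] at h4
  rw [(part_fin T u).2, h2] at h3
  have h5 : Module.finrank ℂ (LinearMap.range Φ) = Module.finrank ℂ (Fin r → ℂ) := by
    rw [Module.finrank_fin_fun]
    omega
  have h6 : LinearMap.range Φ = ⊤ := Submodule.eq_top_of_finrank_eq h5
  rw [← top_le_iff, ← h6]
  rintro _ ⟨g, rfl⟩
  have h7 : Φ g = ∑ m ∈ (g : MvPolynomial (Fin n) ℂ).support,
      (g : MvPolynomial (Fin n) ℂ).coeff m • col x m := by
    funext i
    rw [hΦ, eval_eq', Finset.sum_apply]
    rfl
  rw [h7]
  refine Submodule.sum_mem _ fun m hm => Submodule.smul_mem _ _ (hW m ?_)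
  exact g.2 m (mem_support_iff.1 hm)

/-- the statement for one degree -/
def Loc (r : ℕ) (A : Finset (Mon n)) (u : Fin s → ℤ) (d : MvPolynomial (Fin r × Fin n) ℂ)
    (g : Mon n → Mon n → MvPolynomial (Fin r × Fin n) ℂ) : Prop :=
  ∀ x : Fin r → Fin n → ℂ, T.ptIdeal x ∈ T.hilb r →
    ((∀ m, T.wt m = u → ∃! c, T.Red A (T.ptIdeal x) m c) ↔
      eval (fun p => x p.1 p.2) d ≠ 0) ∧
    ∀ m c, T.wt m = u → T.Red A (T.ptIdeal x) m c → eval (fun p => x p.1 p.2) d ≠ 0 → ∀ a,
      c a * eval (fun p => x p.1 p.2) d = eval (fun p => x p.1 p.2) (g m a)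

theorem loc_small (A : Finset (Mon n)) {u : Fin s → ℤ} (hu : (T.mon u).card ≤ r) :
    ∃ d g, Loc T r A u d g := by
  classical
  refine ⟨if T.mon u ⊆ A then 1 else 0, fun m a => if a = m then 1 else 0, fun x hx => ?_⟩
  have key : ∀ m c, T.wt m = u → T.Red A (T.ptIdeal x) m c →
      m ∈ A ∧ ∀ a, c a = if a = m then 1 else 0 := by
    intro m c hm hc
    have hp : monomial m 1 - ∑ a ∈ A, monomial a (c a) ∈ T.part u := by
      refine Submodule.sub_mem _ (mon_part T hm 1) (Submodule.sum_mem _ fun a _ => ?_)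
      by_cases h : c a = 0
      · rw [h, monomial_zero]
        exact Submodule.zero_mem _
      · exact mon_part T ((hc.1 a h).2.trans hm) _
    have h0 := small T hx hu _ hp hc.2
    have h2 : ∀ a, (if m = a then (1 : ℂ) else 0) - (if a ∈ A then c a else 0) = 0 := by
      intro a
      have h3 := congrArg (coeff a) h0
      rw [coeff_sub, coeff_monomial, coeff_sum, coeff_zero] at h3
      have h4 : ∀ b ∈ A, coeff a (monomial b (c b)) = if a = b then c b else 0 := by
        intro b _
        rw [coeff_monomial]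
        by_cases hab : a = b
        · rw [if_pos hab, if_pos hab.symm]
        · rw [if_neg hab, if_neg fun h => hab h.symm]
      rw [Finset.sum_congr rfl h4, Finset.sum_ite_eq] at h3
      exact h3
    constructor
    · by_contra hmA
      have h3 := h2 m
      rw [if_pos rfl, if_neg hmA, sub_zero] at h3
      exact one_ne_zero h3
    · intro a
      by_cases haA : a ∈ A
      · have h3 := h2 a
        rw [if_pos haA, sub_eq_zero] at h3
        rw [← h3]
        by_cases ham : a = m
        · rw [if_pos ham, if_pos ham.symm]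
        · rw [if_neg ham, if_neg fun h => ham h.symm]
      · have h3 := h2 a
        have h4 : c a = 0 := by
          by_contra h5
          exact haA (hc.1 a h5).1
        rw [if_neg haA, sub_zero] at h3
        rw [h4, if_neg]
        intro h5
        rw [if_pos h5.symm] at h3
        exact one_ne_zero h3
  have key2 : ∀ m, m ∈ A → T.Red A (T.ptIdeal x) m (fun a => if a = m then 1 else 0) := by
    intro m hm
    refine ⟨fun a ha => ?_, ?_⟩
    · by_cases ham : a = m
      · rw [ham]
        exact ⟨hm, rfl⟩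
      · beta_reduce at ha
        rw [if_neg ham] at ha
        exact absurd rfl ha
    · have h3 : ∑ a ∈ A, monomial a (if a = m then (1 : ℂ) else 0) =
          (monomial m 1 : MvPolynomial (Fin n) ℂ) := by
        rw [Finset.sum_eq_single m]
        · rw [if_pos rfl]
        · intro b _ hb
          rw [if_neg hb, monomial_zero]
        · intro h
          exact absurd hm h
      rw [h3, sub_self]
      exact Ideal.zero_mem _
  constructor
  · by_cases hA : T.mon u ⊆ A
    · rw [if_pos hA, map_one]
      refine ⟨fun _ => one_ne_zero, fun _ m hm => ?_⟩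
      refine ⟨_, key2 m (hA ((mem_mon T u m).2 hm)), fun c hc => ?_⟩
      exact funext (key m c hm hc).2
    · rw [if_neg hA, map_zero]
      refine ⟨fun h => ?_, fun h => absurd rfl h⟩
      exfalso
      apply hA
      intro m hm
      obtain ⟨c, hc, -⟩ := h m ((mem_mon T u m).1 hm)
      exact (key m c ((mem_mon T u m).1 hm) hc).1
  · intro m c hm hc hd a
    by_cases hA : T.mon u ⊆ A
    · rw [if_pos hA, map_one, mul_one, (key m c hm hc).2 a]
      beta_reduce
      by_cases ham : a = m
      · rw [if_pos ham, if_pos ham, map_one]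
      · rw [if_neg ham, if_neg ham, map_zero]
    · rw [if_neg hA, map_zero] at hd
      exact absurd rfl hd

/-- relations vanish if the coefficients are unique -/
theorem uniq_zero (h1 : S_PTI) {A : Finset (Mon n)} {u : Fin s → ℤ} {x : Fin r → Fin n → ℂ}
    (h : ∀ m, T.wt m = u → ∃! c, T.Red A (T.ptIdeal x) m c) {k : Mon n → ℂ}
    (hk : ∀ a, k a ≠ 0 → a ∈ A ∧ T.wt a = u) (h0 : ∑ a ∈ A, k a • col x a = 0) (a : Mon n) :
    k a = 0 := by
  by_contra ha
  obtain ⟨haA, hau⟩ := hk a ha
  obtain ⟨c, hc, huniq⟩ := h a hau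
  have hc' := (red_iff T h1 A x a c).1 hc
  have h2 : T.Red A (T.ptIdeal x) a (fun b => c b + k b) := by
    rw [red_iff T h1]
    refine ⟨fun b hb => ?_, ?_⟩
    · by_cases hcb : c b = 0
      · beta_reduce at hb
        rw [hcb, zero_add] at hb
        exact ⟨(hk b hb).1, (hk b hb).2.trans hau.symm⟩
      · exact hc'.1 b hcb
    · rw [hc'.2]
      simp only [add_smul]
      rw [Finset.sum_add_distrib, h0, add_zero]
  have h3 := congrFun (huniq _ h2) a
  beta_reduce at h3
  exact ha (left_eq_add.1 h3.symm)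

theorem loc_big (h1 : S_PTI) (A : Finset (Mon n)) {u : Fin s → ℤ} (hu : r ≤ (T.mon u).card) :
    ∃ d g, Loc T r A u d g := by
  classical
  set Au : Finset (Mon n) := A.filter fun a => T.wt a = u with hAu
  have hsumAu : ∀ (x : Fin r → Fin n → ℂ) (c : Mon n → ℂ), (∀ a, c a ≠ 0 → a ∈ A ∧ T.wt a = u) →
      ∑ a ∈ A, c a • col x a = ∑ a ∈ Au, c a • col x a := by
    intro x c hc
    refine (Finset.sum_subset (Finset.filter_subset _ _) fun a _ ha => ?_).symm
    have h2 : c a = 0 := by
      by_contra h3
      exact ha (Finset.mem_filter.2 (hc a h3))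
    rw [h2, zero_smul]
  by_cases hA : Au.card = r
  · have hcard : Fintype.card Au = r := by rw [Fintype.card_coe]; exact hA
    let e : Fin r ≃ Au := (Fintype.equivFinOfCardEq hcard).symm
    let N : Matrix (Fin r) (Fin r) (MvPolynomial (Fin r × Fin n) ℂ) :=
      Matrix.of fun i k => ∏ j, X (i, j) ^ (e k : Mon n) j
    let cp : Mon n → Fin r → MvPolynomial (Fin r × Fin n) ℂ := fun m i => ∏ j, X (i, j) ^ m j
    refine ⟨N.det, fun m a => if h : a ∈ Au then
      (N.adjugate.mulVec (cp m)) (e.symm ⟨a, h⟩) else 0, fun x hx => ?_⟩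
    set φ : MvPolynomial (Fin r × Fin n) ℂ →+* ℂ := eval (fun p => x p.1 p.2) with hφ
    set Nx : Matrix (Fin r) (Fin r) ℂ := N.map φ with hNx
    have hNxe : ∀ i k, Nx i k = col x (e k : Mon n) i := by
      intro i k
      show φ (∏ j, X (i, j) ^ (e k : Mon n) j) = ∏ j, x i j ^ (e k : Mon n) j
      rw [map_prod]
      refine Finset.prod_congr rfl fun j _ => ?_
      rw [map_pow, hφ, eval_X]
    have hcp : ∀ m, φ ∘ cp m = col x m := by
      intro m
      funext i
      show φ (∏ j, X (i, j) ^ m j) = ∏ j, x i j ^ m j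
      rw [map_prod]
      refine Finset.prod_congr rfl fun j _ => ?_
      rw [map_pow, hφ, eval_X]
    have hdet : φ N.det = Nx.det := RingHom.map_det φ N
    have hadj : ∀ m k, φ ((N.adjugate.mulVec (cp m)) k) = (Nx.adjugate.mulVec (col x m)) k := by
      intro m k
      rw [RingHom.map_mulVec, hcp]
      have h2 : N.adjugate.map φ = Nx.adjugate := RingHom.map_adjugate φ N
      rw [h2]
    have hmulVec : ∀ c : Mon n → ℂ, Nx.mulVec (fun k => c (e k)) = ∑ a ∈ Au, c a • col x a := by
      intro c
      funext i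
      show ∑ k, Nx i k * c (e k) = _
      rw [Finset.sum_apply, ← Finset.sum_coe_sort Au, ← Equiv.sum_comp e]
      refine Finset.sum_congr rfl fun k _ => ?_
      rw [hNxe, Pi.smul_apply, smul_eq_mul, mul_comm]
    have hred : ∀ m c, T.wt m = u → (T.Red A (T.ptIdeal x) m c ↔
        (∀ a, c a ≠ 0 → a ∈ A ∧ T.wt a = u) ∧ Nx.mulVec (fun k => c (e k)) = col x m) := by
      intro m c hm
      rw [red_iff T h1, hm]
      refine and_congr_right fun hc => ?_
      rw [hmulVec, hsumAu x c hc]
      exact eq_comm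
    have hmemAu : ∀ k : Fin r, (e k : Mon n) ∈ A ∧ T.wt (e k : Mon n) = u := fun k =>
      Finset.mem_filter.1 (e k).2
    have hext : ∀ (v : Fin r → ℂ), (∀ a, (fun a => if h : a ∈ Au then v (e.symm ⟨a, h⟩) else 0) a ≠ 0 →
        a ∈ A ∧ T.wt a = u) ∧
        (fun k => (fun a => if h : a ∈ Au then v (e.symm ⟨a, h⟩) else 0) (e k : Mon n)) = v := by
      intro v
      constructor
      · intro a ha
        by_cases h : a ∈ Au
        · exact Finset.mem_filter.1 h
        · beta_reduce at ha
          rw [dif_neg h] at ha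
          exact absurd rfl ha
      · funext k
        beta_reduce
        rw [dif_pos (e k).2]
        congr 1
        exact e.symm_apply_apply k
    constructor
    · rw [hdet]
      constructor
      · intro h hd
        obtain ⟨v, hv0, hv⟩ := Matrix.exists_mulVec_eq_zero_iff.2 hd
        apply hv0
        obtain ⟨e1, e2⟩ := hext v
        set c : Mon n → ℂ := fun a => if h : a ∈ Au then v (e.symm ⟨a, h⟩) else 0 with hc
        have h3 : ∑ a ∈ A, c a • col x a = 0 := by
          rw [hsumAu x c e1, ← hmulVec c, e2]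
          exact hv
        have h4 : ∀ a, c a = 0 := uniq_zero T h1 h e1 h3
        rw [← e2]
        funext k
        exact h4 _
      · intro hd m hm
        have hu' : IsUnit Nx.det := isUnit_iff_ne_zero.2 hd
        obtain ⟨e1, e2⟩ := hext (Nx⁻¹.mulVec (col x m))
        refine ⟨_, (hred m _ hm).2 ⟨e1, ?_⟩, fun c' hc' => ?_⟩
        · rw [e2, Matrix.mulVec_mulVec, Matrix.mul_nonsing_inv _ hu', Matrix.one_mulVec]
        · obtain ⟨f1, f2⟩ := (hred m c' hm).1 hc'
          funext a
          by_cases ha : a ∈ Au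
          · have h3 : (fun k => c' (e k)) = Nx⁻¹.mulVec (col x m) := by
              rw [← f2, Matrix.mulVec_mulVec, Matrix.nonsing_inv_mul _ hu', Matrix.one_mulVec]
            have h4 := congrFun h3 (e.symm ⟨a, ha⟩)
            beta_reduce at h4
            rw [e.apply_symm_apply] at h4
            rw [dif_pos ha]
            exact h4
          · have h3 : c' a = 0 := by
              by_contra h4
              exact ha (Finset.mem_filter.2 (f1 a h4))
            rw [h3, dif_neg ha]
    · intro m c hm hc _ a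
      obtain ⟨f1, f2⟩ := (hred m c hm).1 hc
      rw [hdet]
      beta_reduce
      by_cases ha : a ∈ Au
      · rw [dif_pos ha, hadj, ← f2, Matrix.mulVec_mulVec, Matrix.adjugate_mul,
          Matrix.smul_mulVec, Matrix.one_mulVec]
        show c a * Nx.det = Nx.det * c (e (e.symm ⟨a, ha⟩))
        rw [e.apply_symm_apply, mul_comm]
      · have h3 : c a = 0 := by
          by_contra h4
          exact ha (Finset.mem_filter.2 (f1 a h4))
        rw [dif_neg ha, h3, zero_mul, map_zero]
  · refine ⟨0, fun _ _ => 0, fun x hx => ?_⟩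
    rw [map_zero]
    refine ⟨⟨fun h => ?_, fun h => absurd rfl h⟩, fun m c _ _ h => absurd rfl h⟩
    exfalso
    apply hA
    apply le_antisymm
    · have hli : LinearIndependent ℂ (fun a : Au => col x (a : Mon n)) := by
        rw [Fintype.linearIndependent_iff]
        intro k hk i
        let c : Mon n → ℂ := fun a => if h : a ∈ Au then k ⟨a, h⟩ else 0
        have e1 : ∀ a, c a ≠ 0 → a ∈ A ∧ T.wt a = u := by
          intro a ha
          by_cases h' : a ∈ Au
          · exact Finset.mem_filter.1 h'
          · have h2 : c a = 0 := dif_neg h'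
            exact absurd h2 ha
        have e2 : ∀ a : Au, c (a : Mon n) = k a := fun a => dif_pos a.2
        have h3 : ∑ a ∈ A, c a • col x a = 0 := by
          rw [hsumAu x c e1, ← Finset.sum_coe_sort Au, ← hk]
          exact Finset.sum_congr rfl fun a _ => by rw [e2]
        rw [← e2 i]
        exact uniq_zero T h1 h e1 h3 _
      have h2 := hli.fintype_card_le_finrank
      rw [Fintype.card_coe, Module.finrank_fin_fun] at h2
      exact h2
    · have h2 : Submodule.span ℂ ((Au.image (col x) : Finset (Fin r → ℂ)) : Set (Fin r → ℂ)) = ⊤ := by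
        refine span_top T h1 hx hu _ fun m hm => ?_
        obtain ⟨c, hc, -⟩ := h m hm
        have hc' := (red_iff T h1 A x m c).1 hc
        rw [hm] at hc'
        rw [hc'.2, hsumAu x c hc'.1]
        refine Submodule.sum_mem _ fun a ha => Submodule.smul_mem _ _ (Submodule.subset_span ?_)
        exact Finset.mem_coe.2 (Finset.mem_image_of_mem _ ha)
      have h3 := finrank_span_finset_le_card (R := ℂ) (Au.image (col x))
      unfold Set.finrank at h3
      rw [h2, finrank_top, Module.finrank_fin_fun] at h3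
      exact h3.trans Finset.card_image_le

theorem loc_all (h1 : S_PTI) (A : Finset (Mon n)) (u : Fin s → ℤ) : ∃ d g, Loc T r A u d g := by
  rcases le_total (T.mon u).card r with h | h
  · exact loc_small T A h
  · exact loc_big T h1 A h

end

theorem t_COFR (h1 : S_PTI) : S_COFR := by
  intro n s r T D A
  classical
  choose d g hL using fun u => loc_all (r := r) T h1 A u
  refine ⟨∏ u ∈ D, d u, fun w => if T.wt w.1 ∈ D then
    g (T.wt w.1) w.1 w.2 * ∏ u ∈ D.erase (T.wt w.1), d u else 0, fun x hx => ?_⟩
  have hbase : T.IsBase D A (T.ptIdeal x) ↔ eval (fun p => x p.1 p.2) (∏ u ∈ D, d u) ≠ 0 := by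
    rw [map_prod, Finset.prod_ne_zero_iff]
    constructor
    · intro h u hu
      exact (hL u x hx).1.1 fun m hm => h m (by rw [hm]; exact hu)
    · intro h m hm
      exact (hL _ x hx).1.2 (h _ hm) m rfl
  refine ⟨hbase, fun hB w => ?_⟩
  by_cases hw : T.wt w.1 ∈ D
  · have h2 : T.wt w.1 ∈ D ∧ ∃ c, T.Red A (T.ptIdeal x) w.1 c := ⟨hw, (hB w.1 hw).exists⟩
    have hco : T.co D A (T.ptIdeal x) w = Classical.choose h2.2 w.2 := by
      unfold Cox.co
      rw [dif_pos h2]
    have h3 := (hL (T.wt w.1) x hx).2 w.1 _ rfl (Classical.choose_spec h2.2)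
      (by
        have h4 := hbase.1 hB
        rw [map_prod, Finset.prod_ne_zero_iff] at h4
        exact h4 _ hw) w.2
    beta_reduce
    rw [hco, if_pos hw, ← Finset.mul_prod_erase D d hw, map_mul, map_mul, ← h3]
    ring
  · have h2 : T.co D A (T.ptIdeal x) w = 0 := by
      unfold Cox.co
      rw [dif_neg fun h => hw h.1]
    beta_reduce
    rw [h2, if_neg hw, zero_mul, map_zero]

end Pool.Agent.H703.VS
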